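import Pool.Agent.W123.HGRep

set_option autoImplicit false

/-!
# A fixed graph `Y` for which the class `𝒢(Y)` is universal
-/

namespace Pool.Agent.Results.MP_f0827e_co.Universal

open Pool.Agent.W123.HG Wt

/-- the two cut values of a label -/
def cut (N l : ℕ) (b : Bool) : ℕ := if b then N - l else l

lemma cut_le {N l : ℕ} (h : l ≤ N) (b : Bool) : cut N l b ≤ N := by
  cases b <;> simp [cut, h]

lemma cut_lt {N l l' : ℕ} (h : l ≤ N) (h' : l' ≤ N) :
    (∃ b, cut N l b < cut N l' b) ↔ l' ≠ l := by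
  constructor
  · rintro ⟨b, hb⟩
    cases b <;> simp [cut] at hb <;> omega
  · intro hne
    rcases Nat.lt_or_ge l l' with h1 | h1
    · exact ⟨false, by simpa [cut] using h1⟩
    · refine ⟨true, ?_⟩
      simp only [cut, if_true]
      omega

section
variable {Γ : Type} [Group Γ] {n : ℕ} (γ : Fin (n + 3) → Γ) (N : ℕ)
  (lv : V Γ n → ℕ) (le : E Γ n → ℕ)

/-- the hub of a vertex -/
def hubOf : Wt (V Γ n) (E Γ n) → Fin 3
  | vtx _ => 0
  | out _ => 1
  | inn _ => 2
  | mark => 1

/-- the cuts of a vertex -/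
def cuts : Wt (V Γ n) (E Γ n) → Fin 3 × Bool → ℕ
  | vtx v, m => cut N (lv v) m.2
  | out e, m => if m.1 = 0 then cut N (le e) m.2 else cut N (lv (sr e)) m.2
  | inn e, m => if m.1 = 0 then cut N (le e) m.2 else cut N (lv (tg γ e)) m.2
  | mark, m => if m.1 = 0 then 0 else N

omit [Group Γ] in
lemma ex_iff (k k' : Fin 3) (p q : Fin 3 → Bool → Prop) (j : Fin 3)
    (h : k = j + 1) (h' : k' = j + 2) :
    (∃ m : Fin 3 × Bool, (k = m.1 + 1 ∧ k' = m.1 + 2 ∧ p m.1 m.2) ∨
      (k' = m.1 + 1 ∧ k = m.1 + 2 ∧ q m.1 m.2)) ↔ ∃ b, p j b := by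
  constructor
  · rintro ⟨⟨i, b⟩, ⟨h1, h2, h3⟩ | ⟨h1, h2, h3⟩⟩
    · refine ⟨b, ?_⟩
      have : i = j := by
        have h4 : j + 1 = i + 1 := h.symm.trans h1
        exact (add_right_cancel h4).symm
      rw [← this]
      exact h3
    · exfalso
      simp only at h1 h2
      rw [h] at h2
      rw [h'] at h1
      clear h3 h h'
      revert h1 h2
      revert i j
      decide
  · rintro ⟨b, hb⟩
    exact ⟨(j, b), Or.inl ⟨h, h', hb⟩⟩

omit [Group Γ] in
lemma ex_iff' (k k' : Fin 3) (p q : Fin 3 → Bool → Prop) (j : Fin 3)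
    (h : k' = j + 1) (h' : k = j + 2) :
    (∃ m : Fin 3 × Bool, (k = m.1 + 1 ∧ k' = m.1 + 2 ∧ p m.1 m.2) ∨
      (k' = m.1 + 1 ∧ k = m.1 + 2 ∧ q m.1 m.2)) ↔ ∃ b, q j b := by
  rw [← ex_iff k' k q p j h h']
  constructor
  · rintro ⟨m, h | h⟩
    · exact ⟨m, Or.inr h⟩
    · exact ⟨m, Or.inl h⟩
  · rintro ⟨m, h | h⟩
    · exact ⟨m, Or.inr h⟩
    · exact ⟨m, Or.inl h⟩

theorem inClass (hv : Function.Injective lv) (he : Function.Injective le)
    (hvN : ∀ v, lv v ≤ N) (heN : ∀ e, le e ≤ N) : InClass Y (X sr (tg γ)) := by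
  refine inClass_of_cuts _ N hubOf (cuts γ N lv le) ?_ ?_
  · intro w m
    cases w <;> simp only [cuts]
    · exact cut_le (hvN _) _
    · split_ifs
      · exact cut_le (heN _) _
      · exact cut_le (hvN _) _
    · split_ifs
      · exact cut_le (heN _) _
      · exact cut_le (hvN _) _
    · split_ifs
      · exact Nat.zero_le _
      · exact le_rfl
  · intro v w
    cases v with
    | vtx v =>
      cases w with
      | vtx w => simp [X, adj, hubOf]
      | out e =>
        have := ex_iff (hubOf (vtx v : Wt (V Γ n) (E Γ n))) (hubOf (out e))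
          (fun i b => cuts γ N lv le (out e) (i, b) < cuts γ N lv le (vtx v) (i, b))
          (fun i b => cuts γ N lv le (vtx v) (i, b) < cuts γ N lv le (out e) (i, b)) 2 rfl rfl
        rw [this]
        change v ≠ sr e ↔ _ ∧ ((0 : Fin 3) = 1 ∨ ∃ b, cut N (lv (sr e)) b < cut N (lv v) b)
        rw [cut_lt (hvN _) (hvN _), hv.ne_iff]
        simp
      | inn e =>
        have := ex_iff' (hubOf (vtx v : Wt (V Γ n) (E Γ n))) (hubOf (inn e))
          (fun i b => cuts γ N lv le (inn e) (i, b) < cuts γ N lv le (vtx v) (i, b))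
          (fun i b => cuts γ N lv le (vtx v) (i, b) < cuts γ N lv le (inn e) (i, b)) 1 rfl rfl
        rw [this]
        change v ≠ tg γ e ↔ _ ∧ ((0 : Fin 3) = 2 ∨ ∃ b, cut N (lv v) b < cut N (lv (tg γ e)) b)
        rw [cut_lt (hvN _) (hvN _), hv.ne_iff]
        simp [eq_comm]
      | mark =>
        have := ex_iff (hubOf (vtx v : Wt (V Γ n) (E Γ n))) (hubOf (mark : Wt (V Γ n) (E Γ n)))
          (fun i b => cuts γ N lv le mark (i, b) < cuts γ N lv le (vtx v) (i, b))
          (fun i b => cuts γ N lv le (vtx v) (i, b) < cuts γ N lv le mark (i, b)) 2 rfl rfl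
        rw [this]
        change False ↔ _ ∧ ((0 : Fin 3) = 1 ∨ ∃ b, N < cut N (lv v) b)
        have h1 : ¬ ∃ b, N < cut N (lv v) b := by
          rintro ⟨b, hb⟩
          have := cut_le (hvN v) b
          omega
        simp [h1]
    | out e =>
      cases w with
      | vtx v =>
        have := ex_iff' (hubOf (out e)) (hubOf (vtx v : Wt (V Γ n) (E Γ n)))
          (fun i b => cuts γ N lv le (vtx v) (i, b) < cuts γ N lv le (out e) (i, b))
          (fun i b => cuts γ N lv le (out e) (i, b) < cuts γ N lv le (vtx v) (i, b)) 2 rfl rfl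
        rw [this]
        change v ≠ sr e ↔ _ ∧ ((1 : Fin 3) = 0 ∨ ∃ b, cut N (lv (sr e)) b < cut N (lv v) b)
        rw [cut_lt (hvN _) (hvN _), hv.ne_iff]
        simp
      | out e' => simp [X, adj, hubOf]
      | inn e' =>
        have := ex_iff (hubOf (out e : Wt (V Γ n) (E Γ n))) (hubOf (inn e'))
          (fun i b => cuts γ N lv le (inn e') (i, b) < cuts γ N lv le (out e) (i, b))
          (fun i b => cuts γ N lv le (out e) (i, b) < cuts γ N lv le (inn e') (i, b)) 0 rfl rfl
        rw [this]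
        change e ≠ e' ↔ _ ∧ ((1 : Fin 3) = 2 ∨ ∃ b, cut N (le e') b < cut N (le e) b)
        rw [cut_lt (heN _) (heN _), he.ne_iff]
        simp
      | mark => simp [X, adj, hubOf]
    | inn e =>
      cases w with
      | vtx v =>
        have := ex_iff (hubOf (inn e)) (hubOf (vtx v : Wt (V Γ n) (E Γ n)))
          (fun i b => cuts γ N lv le (vtx v) (i, b) < cuts γ N lv le (inn e) (i, b))
          (fun i b => cuts γ N lv le (inn e) (i, b) < cuts γ N lv le (vtx v) (i, b)) 1 rfl rfl
        rw [this]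
        change v ≠ tg γ e ↔ _ ∧ ((2 : Fin 3) = 0 ∨ ∃ b, cut N (lv v) b < cut N (lv (tg γ e)) b)
        rw [cut_lt (hvN _) (hvN _), hv.ne_iff]
        simp [eq_comm]
      | out e' =>
        have := ex_iff' (hubOf (inn e)) (hubOf (out e' : Wt (V Γ n) (E Γ n)))
          (fun i b => cuts γ N lv le (out e') (i, b) < cuts γ N lv le (inn e) (i, b))
          (fun i b => cuts γ N lv le (inn e) (i, b) < cuts γ N lv le (out e') (i, b)) 0 rfl rfl
        rw [this]
        change e' ≠ e ↔ _ ∧ ((2 : Fin 3) = 1 ∨ ∃ b, cut N (le e) b < cut N (le e') b)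
        rw [cut_lt (heN _) (heN _), he.ne_iff]
        simp
      | inn e' => simp [X, adj, hubOf]
      | mark =>
        have := ex_iff' (hubOf (inn e : Wt (V Γ n) (E Γ n))) (hubOf (mark : Wt (V Γ n) (E Γ n)))
          (fun i b => cuts γ N lv le mark (i, b) < cuts γ N lv le (inn e) (i, b))
          (fun i b => cuts γ N lv le (inn e) (i, b) < cuts γ N lv le mark (i, b)) 0 rfl rfl
        rw [this]
        change False ↔ _ ∧ ((2 : Fin 3) = 1 ∨ ∃ b, cut N (le e) b < 0)
        simp
    | mark =>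
      cases w with
      | vtx v =>
        have := ex_iff' (hubOf (mark : Wt (V Γ n) (E Γ n))) (hubOf (vtx v : Wt (V Γ n) (E Γ n)))
          (fun i b => cuts γ N lv le (vtx v) (i, b) < cuts γ N lv le mark (i, b))
          (fun i b => cuts γ N lv le mark (i, b) < cuts γ N lv le (vtx v) (i, b)) 2 rfl rfl
        rw [this]
        change False ↔ _ ∧ ((1 : Fin 3) = 0 ∨ ∃ b, N < cut N (lv v) b)
        have h1 : ¬ ∃ b, N < cut N (lv v) b := by
          rintro ⟨b, hb⟩
          have := cut_le (hvN v) b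
          omega
        simp [h1]
      | out e => simp [X, adj, hubOf]
      | inn e =>
        have := ex_iff (hubOf (mark : Wt (V Γ n) (E Γ n))) (hubOf (inn e : Wt (V Γ n) (E Γ n)))
          (fun i b => cuts γ N lv le (inn e) (i, b) < cuts γ N lv le mark (i, b))
          (fun i b => cuts γ N lv le mark (i, b) < cuts γ N lv le (inn e) (i, b)) 0 rfl rfl
        rw [this]
        change False ↔ _ ∧ ((1 : Fin 3) = 2 ∨ ∃ b, cut N (le e) b < 0)
        simp
      | mark => simp [X]

end

/-- There is a finite graph `Y` such that every finite group is isomorphic to the automorphism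
group of the intersection graph of a finite family of connected subgraphs of a subdivision of
`Y`. -/
theorem result : ∃ (U : Type) (_ : Finite U) (Y : SimpleGraph U),
    ∀ (Γ : Type) [Group Γ] [Finite Γ], ∃ (W : Type) (_ : Finite W) (X : SimpleGraph W),
      InClass Y X ∧ Nonempty ((X ≃g X) ≃* Γ) := by
  refine ⟨_, inferInstance, Y, ?_⟩
  intro Γ _ _
  obtain ⟨n, ⟨eq⟩⟩ := Finite.exists_equiv_fin Γ
  let γ : Fin (n + 3) → Γ := fun i => if h : i.val < n then eq.symm ⟨i.val, h⟩ else 1
  have hγ : Function.Surjective γ := by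
    intro g
    refine ⟨⟨(eq g).val, by have := (eq g).2; omega⟩, ?_⟩
    simp [γ]
  obtain ⟨M, ⟨f⟩⟩ := Finite.exists_equiv_fin (E Γ n)
  have hW : Finite (Wt (V Γ n) (E Γ n)) := by
    refine Finite.of_injective (β := (V Γ n) ⊕ ((E Γ n) ⊕ ((E Γ n) ⊕ Unit)))
      (fun x => match x with
        | vtx v => Sum.inl v
        | out e => Sum.inr (Sum.inl e)
        | inn e => Sum.inr (Sum.inr (Sum.inl e))
        | mark => Sum.inr (Sum.inr (Sum.inr ()))) ?_
    intro x y h
    cases x <;> cases y <;> simp_all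
  refine ⟨_, hW, X sr (tg γ), ?_, ⟨(MulEquiv.ofBijective (actHom γ) (actHom_bijective γ hγ)).symm⟩⟩
  refine inClass γ M (fun v => (f (v, true)).val) (fun e => (f e).val) ?_ ?_ ?_ ?_
  · intro v w h
    have := f.injective (Fin.ext h)
    simpa using this
  · intro v w h
    exact f.injective (Fin.ext h)
  · intro v
    exact (f (v, true)).2.le
  · intro e
    exact (f e).2.le

end Pool.Agent.Results.MP_f0827e_co.Universal
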